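import Pool.Agent.H23.DM.TargetsG
import Pool.Agent.H23.DM.TargetsI

/-!
# The twelfth moment in the whole conductor: row KC (large values in a class)
-/

set_option autoImplicit false

open NumberField NumberField.InfinitePlace
open scoped nonZeroDivisors

namespace Pool.Agent.H34.DM.KC

open Pool.Agent.H25.HK Pool.Agent.H23.LB Pool.Agent.H23.LC
open Pool.Agent.H23.DM
open Pool.Agent.H27.TM (Cls)
open Pool.Agent.H29.DW (dg Rl rv Pos)
open Pool.Agent.H29.TC (LC cq MC)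
open Pool.Agent.H31.SW (PP DD dK Pf)
open Pool.Agent.H31.SX (ND LK)

private lemma one_le_dK (K : Type) [Field K] [NumberField K] : 1 ≤ dK K := by
  unfold Pool.Agent.H31.SW.dK
  have h := Int.one_le_abs (discr_ne_zero K)
  exact_mod_cast h

private lemma one_le_PP {K : Type} [Field K] [NumberField K] (τ : InfinitePlace K → ℝ)
    (h : ∀ v, 1 ≤ τ v) : 1 ≤ PP τ := by
  classical
  unfold Pool.Agent.H31.SW.PP
  calc (1 : ℝ) = ∏ _v : InfinitePlace K, (1 : ℝ) := by simp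
    _ ≤ ∏ v, τ v ^ v.mult := Finset.prod_le_prod (fun v _ => by norm_num)
        fun v _ => one_le_pow₀ (h v)

private lemma PP_rpow {K : Type} [Field K] [NumberField K] (τ : InfinitePlace K → ℝ)
    (θ : ℝ) (h : ∀ v, 1 ≤ τ v) : PP (fun v => τ v ^ θ) = PP τ ^ θ := by
  classical
  unfold Pool.Agent.H31.SW.PP
  rw [← Real.finsetProd_rpow _ _ (fun v _ => pow_nonneg (by linarith [h v]) _)]
  apply Finset.prod_congr rfl
  intro v _
  have h0 : 0 ≤ τ v := by linarith [h v]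
  rw [← Real.rpow_natCast, ← Real.rpow_natCast, ← Real.rpow_mul h0, ← Real.rpow_mul h0,
    mul_comm]

private lemma PP_pow {K : Type} [Field K] [NumberField K] (τ : InfinitePlace K → ℝ)
    (k : ℕ) : PP (fun v => τ v ^ k) = PP τ ^ k := by
  classical
  unfold Pool.Agent.H31.SW.PP
  rw [← Finset.prod_pow]
  apply Finset.prod_congr rfl
  intro v _
  rw [← pow_mul, ← pow_mul, Nat.mul_comm]

private lemma one_le_Nf {K : Type} [Field K] [NumberField K] (f : Ideal (𝓞 K)) (h : f ≠ ⊥) :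
    1 ≤ Nf K f := by
  unfold Pool.Agent.H23.LB.Nf
  have h1 : Ideal.absNorm f ≠ 0 := by
    intro h2
    exact h (Ideal.absNorm_eq_zero_iff.mp h2)
  exact_mod_cast Nat.one_le_iff_ne_zero.mpr h1

/-- a smaller ideal -/
private lemma FM_mono {K : Type} [Field K] [NumberField K] (k κ κ' : Ideal (𝓞 K))
    (θ : 𝓞 K ⧸ k → ℂ) (ι : Type) (J : Finset ι) (η : ι → 𝓞 K ⧸ k → ℂ) (γ : ι → 𝓞 K)
    (h : FM k κ' θ J η γ) (hκ : κ ≤ κ') (J' : Finset ι) (hJ : J' ⊆ J) : FM k κ θ J' η γ where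
  nd := h.nd
  lc := fun j hj => h.lc j (hJ hj)
  fq := fun j hj x hx => h.fq j (hJ hj) x (Ideal.map_mono hκ hx)

/-- the case of a large threshold: the parameters -/
private lemma theta_exists (T g : ℝ) (hg6 : T < g ^ 6) (hT : 1 ≤ T) (hg0 : 0 < g)
    (hg3 : g ^ 3 ≤ T) : ∃ θ : ℝ, 1 / 6 ≤ θ ∧ θ ≤ 1 / 3 ∧ T ^ θ = g := by
  have hg1 : 1 < g := by
    by_contra h
    have h1 : g ^ 6 ≤ 1 := pow_le_one₀ hg0.le (not_lt.mp h)
    linarith
  have hT1 : 1 < T := lt_of_lt_of_le (one_lt_pow₀ hg1 (by norm_num)) hg3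
  have hlogT : 0 < Real.log T := Real.log_pos hT1
  have hlogg : 0 < Real.log g := Real.log_pos hg1
  refine ⟨Real.log g / Real.log T, ?_, ?_, ?_⟩
  · have h1 : Real.log T ≤ Real.log (g ^ 6) := Real.log_le_log (by linarith) hg6.le
    rw [Real.log_pow] at h1
    push_cast at h1
    rw [div_le_div_iff₀ (by norm_num) hlogT]
    linarith
  · have h1 : Real.log (g ^ 3) ≤ Real.log T := Real.log_le_log (by positivity) hg3
    rw [Real.log_pow] at h1
    push_cast at h1
    rw [div_le_div_iff₀ hlogT (by norm_num)]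
    linarith
  · rw [Real.rpow_def_of_pos (by linarith), mul_div_cancel₀ _ hlogT.ne',
      Real.exp_log (by linarith)]

/-- the case of a small threshold -/
private lemma small_case (T V D A C2 C3 C4 N : ℝ) (hT : 1 ≤ T) (hV : 1 ≤ V) (hA1 : 1 ≤ A)
    (hDA : D ≤ A) (hC2 : 1 ≤ C2) (hC3 : 1 ≤ C3) (hC4 : 1 ≤ C4)
    (hN : N ≤ C3 * (D * T)) (hg : V ^ 12 ≤ (C2 * A) ^ 6 * T) :
    N ≤ C3 * C4 * C2 ^ 6 * (A ^ 7 * (T ^ 2 / V ^ 12)) := by
  have hV12 : 0 < V ^ 12 := by positivity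
  have hT0 : 0 < T := by linarith
  have hA0 : 0 < A := by linarith
  calc N ≤ C3 * (D * T) := hN
    _ ≤ C3 * (A * T) := by
        apply mul_le_mul_of_nonneg_left _ (by linarith)
        exact mul_le_mul_of_nonneg_right hDA hT0.le
    _ = C3 * (A * T * V ^ 12 / V ^ 12) := by
        rw [mul_div_assoc, div_self hV12.ne', mul_one]
    _ ≤ C3 * (A * T * ((C2 * A) ^ 6 * T) / V ^ 12) := by
        apply mul_le_mul_of_nonneg_left _ (by linarith)
        apply div_le_div_of_nonneg_right _ hV12.le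
        exact mul_le_mul_of_nonneg_left hg (by positivity)
    _ = C3 * C2 ^ 6 * (A ^ 7 * (T ^ 2 / V ^ 12)) := by ring
    _ ≤ C3 * C4 * C2 ^ 6 * (A ^ 7 * (T ^ 2 / V ^ 12)) := by
        apply mul_le_mul_of_nonneg_right _ (by positivity)
        apply mul_le_mul_of_nonneg_right _ (by positivity)
        exact le_mul_of_one_le_right (by linarith) hC4

theorem pf_KC (hBL : D_BL) (hCL : D_CL) (hTC : D_TC) (hCH : D_CH) : D_KC := by
  classical
  intro n ε p hn hε hp
  obtain ⟨C2, hC2, hBL⟩ := hBL n ε p hn hε hp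
  obtain ⟨C4, hC4, hCL⟩ := hCL n hn
  obtain ⟨C3, hC3, hTC⟩ := hTC n hn
  have hC26 : 1 ≤ C2 ^ 6 := one_le_pow₀ hC2
  refine ⟨C3 * C4 * C2 ^ 6, ?_, ?_⟩
  · exact one_le_mul_of_one_le_of_one_le (one_le_mul_of_one_le_of_one_le hC3 hC4) hC26
  intro K _ _ hK l k κ χ M x₀ y ω ρ τ ι J η γ c D V hFP hω hρ hKap hFM hJ hS hD hDD hV hVT hlarge
  have hk : k ≠ ⊥ := hFP.lk.k_ne
  have hkr : k.radical ≠ ⊥ := by
    intro h
    exact hk (le_bot_iff.mp (h ▸ Ideal.le_radical))
  have hr0 : 1 ≤ Nf K k.radical := one_le_Nf _ hkr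
  have hNk : 1 ≤ Nf K k := one_le_Nf _ hk
  have hV6 : 1 ≤ V ^ 6 := one_le_pow₀ hV
  have hT : 1 ≤ Nf K k * PP τ := hV6.trans hVT
  have hdK := one_le_dK K
  set T : ℝ := Nf K k * PP τ with hTdef
  have hTε : 1 ≤ T ^ ε := Real.one_le_rpow hT hε.le
  set r₀ : ℝ := Nf K k.radical with hr₀
  set B : ℝ := D * dK K ^ 2 * r₀ ^ 3 * T ^ ε with hB
  set A : ℝ := D * dK K ^ 2 * r₀ ^ 4 * T ^ ε with hA
  have hdK2 : 1 ≤ dK K ^ 2 := one_le_pow₀ hdK
  have hDd : 1 ≤ D * dK K ^ 2 := one_le_mul_of_one_le_of_one_le hD hdK2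
  have hr4 : 1 ≤ r₀ ^ 4 := one_le_pow₀ hr0
  have hr3 : 1 ≤ r₀ ^ 3 := one_le_pow₀ hr0
  have hDr : 1 ≤ D * dK K ^ 2 * r₀ ^ 4 := one_le_mul_of_one_le_of_one_le hDd hr4
  have hA1 : 1 ≤ A := one_le_mul_of_one_le_of_one_le hDr hTε
  have hB1 : 1 ≤ B := one_le_mul_of_one_le_of_one_le (one_le_mul_of_one_le_of_one_le hDd hr3) hTε
  have hBA : B * r₀ = A := by rw [hB, hA]; ring
  have hBA' : B ≤ A := by
    rw [← hBA]
    exact le_mul_of_one_le_right (by linarith) hr0
  have hDA : D ≤ A := by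
    rw [hA]
    calc D ≤ D * (dK K ^ 2 * (r₀ ^ 4 * T ^ ε)) := by
          refine le_mul_of_one_le_right (by linarith) ?_
          exact one_le_mul_of_one_le_of_one_le hdK2 (one_le_mul_of_one_le_of_one_le hr4 hTε)
      _ = D * dK K ^ 2 * r₀ ^ 4 * T ^ ε := by ring
  have hVpos : 0 < V := by linarith
  rcases J.eq_empty_or_nonempty with rfl | ⟨j₀, hj₀⟩
  · simp only [Finset.card_empty, Nat.cast_zero]
    positivity
  have hτ : ∀ v, 1 ≤ τ v := (hJ j₀ hj₀).one
  have hPτ : 1 ≤ PP τ := one_le_PP τ hτ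
  rcases le_or_gt (V ^ 12) ((C2 * A) ^ 6 * T) with hg | hg
  · exact small_case T V D A C2 C3 C4 _ hT hV hA1 hDA hC2 hC3 hC4
      (hTC K hK k ι J η c τ D hk hτ (fun j hj => (hFM.lc j hj).mc) hJ hS) hg
  · set g : ℝ := V ^ 2 / (C2 * A) with hgdef
    have hCA : 1 ≤ C2 * A := one_le_mul_of_one_le_of_one_le hC2 hA1
    have hCA0 : 0 < C2 * A := by linarith
    have hg0 : 0 < g := by
      rw [hgdef]
      positivity
    have hg6 : T < g ^ 6 := by
      rw [hgdef, div_pow, lt_div_iff₀ (by positivity)]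
      calc T * (C2 * A) ^ 6 = (C2 * A) ^ 6 * T := by ring
        _ < V ^ 12 := hg
        _ = (V ^ 2) ^ 6 := by ring
    have hgV : g ≤ V ^ 2 := by
      rw [hgdef]
      exact div_le_self (by positivity) hCA
    have hg3 : g ^ 3 ≤ T := by
      calc g ^ 3 ≤ (V ^ 2) ^ 3 := pow_le_pow_left₀ hg0.le hgV 3
        _ = V ^ 6 := by ring
        _ ≤ T := hVT
    obtain ⟨θ, hθ6, hθ3, hTθ⟩ := theta_exists T g hg6 hT hg0 hg3
    have hθ0 : 0 ≤ θ := by linarith
    have hθ1 : θ ≤ 1 := by linarith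
    obtain ⟨hk1, hk2, hk3, hk4, hk5, hk6⟩ := hKap θ hθ0 hθ1
    obtain ⟨hk5, hk5'⟩ := hk5 hθ6
    have hk6 := hk6 hθ3
    obtain ⟨b, κ₃, b₃, hch, -, hb, hκ₃, hb₃, hrest⟩ := hCH K k (κ θ) hk hk1 hk2
    have hrest := (hrest ⊤ k (by rw [Ideal.top_mul]))
    have hNb₃ : Nf K k = Nf K κ₃ * Nf K b₃ := by
      unfold Pool.Agent.H23.LB.Nf
      rw [← Nat.cast_mul, ← map_mul, ← hch.b₃_eq]
    set G : InfinitePlace K → ℝ := fun v => τ v ^ θ with hG
    have hG1 : ∀ v, 1 ≤ G v := fun v => Real.one_le_rpow (hτ v) hθ0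
    have hG3 : ∀ v, G v ^ 3 ≤ τ v := by
      intro v
      have h0 : 0 ≤ τ v := by linarith [hτ v]
      calc G v ^ 3 = τ v ^ (θ * 3) := by
            rw [hG, ← Real.rpow_natCast, ← Real.rpow_mul h0]
            norm_num
        _ ≤ τ v ^ (1 : ℝ) := Real.rpow_le_rpow_of_exponent_le (hτ v) (by linarith)
        _ = τ v := Real.rpow_one _
    have hPG : PP G = PP τ ^ θ := by
      rw [hG, PP_rpow τ θ hτ]
    have hPG0 : 0 < PP G := by
      rw [hPG]
      exact Real.rpow_pos_of_pos (by linarith) _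
    have hNκ0 : 0 < Nf K (κ θ) :=
      lt_of_lt_of_le (Real.rpow_pos_of_pos (by linarith) _) hk3
    have hTθ' : Nf K k ^ θ * PP G = g := by
      rw [hPG, ← Real.mul_rpow (by linarith) (by linarith), ← hTdef, hTθ]
    have hPG3 : PP (fun v => G v ^ 3) = PP G ^ 3 := PP_pow G 3
    -- the size of the box
    have hGG1 : g ≤ Nf K (κ θ) * PP G := by
      rw [← hTθ']
      exact mul_le_mul_of_nonneg_right hk3 hPG0.le
    have hGG2 : Nf K (κ θ) * PP G ≤ g * r₀ := by
      calc Nf K (κ θ) * PP G ≤ Nf K k ^ θ * Nf K k.radical * PP G :=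
            mul_le_mul_of_nonneg_right hk4 hPG0.le
        _ = Nf K k ^ θ * PP G * r₀ := by rw [hr₀]; ring
        _ = g * r₀ := by rw [hTθ']
    obtain ⟨bl, hbl1, hbl2⟩ := hCL K hK ι J γ b₃ c τ (fun v => G v ^ 3) hb₃
      (fun v => ⟨by have := hG1 v; positivity, hG3 v⟩)
      (fun j hj v => ⟨(hJ j hj).real v, by have := (hJ j hj).upp v; linarith⟩)
    have hcells : Nf K b₃ * (PP τ / PP (fun v => G v ^ 3)) ≤ T / g ^ 3 := by
      have h1 : g ^ 3 = Nf K k ^ (3 * θ) * PP G ^ 3 := by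
        rw [← hTθ', mul_pow]
        congr 1
        rw [← Real.rpow_natCast, ← Real.rpow_mul (by linarith)]
        congr 1
        push_cast
        ring
      have hκ3 : Nf K k ^ (3 * θ) ≤ Nf K κ₃ := by
        rw [hch.κ₃_eq]
        exact hk6
      have hNκ3 : 0 < Nf K k ^ (3 * θ) := Real.rpow_pos_of_pos (by linarith) _
      have hNb0 : 0 ≤ Nf K b₃ := by linarith [one_le_Nf b₃ hb₃]
      rw [hPG3, hTdef, hNb₃, h1, div_eq_mul_inv, div_eq_mul_inv, mul_inv]
      have h2 : 1 ≤ Nf K κ₃ * (Nf K k ^ (3 * θ))⁻¹ := by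
        rw [← div_eq_mul_inv, one_le_div hNκ3]
        exact hκ3
      have h3 : 0 ≤ Nf K b₃ * (PP τ * (PP G ^ 3)⁻¹) := by positivity
      calc Nf K b₃ * (PP τ * (PP G ^ 3)⁻¹) ≤
            Nf K b₃ * (PP τ * (PP G ^ 3)⁻¹) * (Nf K κ₃ * (Nf K k ^ (3 * θ))⁻¹) :=
            le_mul_of_one_le_right h3 h2
        _ = Nf K κ₃ * Nf K b₃ * PP τ * ((Nf K k ^ (3 * θ))⁻¹ * (PP G ^ 3)⁻¹) := by ring
    have hbl1' : ((J.image bl).card : ℝ) ≤ C4 * (T / g ^ 3) :=
      hbl1.trans (mul_le_mul_of_nonneg_left hcells (by linarith))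
    have hT0 : 0 < T := by linarith
    have hA0 : 0 < A := by linarith
    have hB0 : 0 < B := by linarith
    have hfib : ∀ b' ∈ J.image bl, ((J.filter fun j => bl j = b').card : ℝ) ≤
        C2 * (A ^ 2 * (T / (V ^ 4 * g))) := by
      intro b' _
      have h1 := hBL K hK l k (κ θ) b κ₃ b₃ χ M x₀ y ω ρ G τ ι (J.filter fun j => bl j = b') η γ
        c D V hFP hω hρ hch hk5
        (FM_mono k (κ θ) (κ (1 / 6)) χ ι J η γ hFM hk5' _ (Finset.filter_subset _ _))
        (fun v => ⟨hG1 v, hG3 v⟩) (fun j hj => hJ j (Finset.mem_filter.mp hj).1) ?_ ?_ hD hDD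
        hVpos ?_ (fun j hj => hlarge j (Finset.mem_filter.mp hj).1)
      · rw [← hr₀, ← hTdef, ← hB] at h1
        refine h1.trans (mul_le_mul_of_nonneg_left ?_ (by linarith))
        refine mul_le_mul (pow_le_pow_left₀ hB0.le hBA' 2) ?_ (by positivity) (by positivity)
        refine div_le_div_of_nonneg_left hT0.le (by positivity) ?_
        exact mul_le_mul_of_nonneg_left hGG1 (by positivity)
      · intro i hi j hj
        rw [Finset.mem_filter] at hi hj
        exact hbl2 i hi.1 j hj.1 (hi.2.trans hj.2.symm)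
      · intro η₀ c₀
        refine le_trans ?_ (hS η₀ c₀)
        norm_cast
        apply Finset.card_le_card
        intro j hj
        rw [Finset.mem_filter] at hj ⊢
        exact ⟨(Finset.mem_filter.mp hj.1).1, hj.2⟩
      · rw [← hr₀, ← hTdef, ← hB]
        calc C2 * (B * (Nf K (κ θ) * PP G)) ≤ C2 * (B * (g * r₀)) := by
              apply mul_le_mul_of_nonneg_left _ (by linarith)
              exact mul_le_mul_of_nonneg_left hGG2 hB0.le
          _ = C2 * (B * r₀) * g := by ring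
          _ = C2 * A * g := by rw [hBA]
          _ = V ^ 2 := by rw [hgdef, mul_div_cancel₀ _ hCA0.ne']
    have hcard : (J.card : ℝ) = ∑ b ∈ J.image bl, ((J.filter fun j => bl j = b).card : ℝ) := by
      have := Finset.card_eq_sum_card_image bl J
      exact_mod_cast this
    calc (J.card : ℝ) = ∑ b ∈ J.image bl, ((J.filter fun j => bl j = b).card : ℝ) := hcard
      _ ≤ ∑ _b ∈ J.image bl, C2 * (A ^ 2 * (T / (V ^ 4 * g))) := Finset.sum_le_sum hfib
      _ = ((J.image bl).card : ℝ) * (C2 * (A ^ 2 * (T / (V ^ 4 * g)))) := by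
          rw [Finset.sum_const, nsmul_eq_mul]
      _ ≤ (C4 * (T / g ^ 3)) * (C2 * (A ^ 2 * (T / (V ^ 4 * g)))) :=
          mul_le_mul_of_nonneg_right hbl1' (by positivity)
      _ = C4 * C2 ^ 5 * (A ^ 6 * (T ^ 2 / V ^ 12)) := by
          rw [hgdef]
          field_simp
      _ ≤ C3 * C4 * C2 ^ 6 * (A ^ 7 * (T ^ 2 / V ^ 12)) := by
          apply mul_le_mul
          · calc C4 * C2 ^ 5 = 1 * C4 * C2 ^ 5 := by ring
              _ ≤ C3 * C4 * C2 ^ 6 := by
                  apply mul_le_mul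
                  · exact mul_le_mul_of_nonneg_right hC3 (by linarith)
                  · exact pow_le_pow_right₀ hC2 (by norm_num)
                  · positivity
                  · positivity
          · apply mul_le_mul_of_nonneg_right _ (by positivity)
            exact pow_le_pow_right₀ hA1 (by norm_num)
          · positivity
          · positivity

end Pool.Agent.H34.DM.KC
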